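import Pool.Agent.Helper3.TP.St

/-!
# Project TP: module SCALE
-/

set_option autoImplicit false

namespace Helper80.TP

open Helper3.TP

theorem hScale : PScale := by
  intro p b lam t₀ l h1 hlcm hbig hb hp0
  have key : ∀ j, j ≤ l →
      (∃ g t, 1 ≤ g ∧ g ≤ b ∧ t₀ ≤ t ∧ t ≤ t₀ * (lam + 1) ^ l ∧ p g ≤ t ∧
        ∀ h, 1 ≤ h → ¬ h ∣ g → lam * t < p h) ∨
      ∃ g, 2 ^ j ≤ g ∧ p g ≤ t₀ * (lam + 1) ^ j := by
    intro j
    induction j with
    | zero =>
      intro _
      refine Or.inr ⟨1, by simp, ?_⟩
      rw [h1]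
      exact Nat.zero_le _
    | succ j ih =>
      intro hj
      rcases ih (by omega) with hc | ⟨g, hg, hpg⟩
      · exact Or.inl hc
      · have hg1 : 1 ≤ g := le_trans Nat.one_le_two_pow hg
        have hmono : t₀ * (lam + 1) ^ j ≤ t₀ * (lam + 1) ^ l :=
          Nat.mul_le_mul_left _ (Nat.pow_le_pow_right (by omega) (by omega))
        by_cases hall : ∀ h, 1 ≤ h → ¬ h ∣ g → lam * (t₀ * (lam + 1) ^ j) < p h
        · refine Or.inl ⟨g, t₀ * (lam + 1) ^ j, hg1, ?_, ?_, hmono, hpg, hall⟩
          · by_contra hgb
            have h2 := hbig g (by omega)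
            omega
          · exact Nat.le_mul_of_pos_right _ (Nat.pow_pos (by omega))
        · push Not at hall
          obtain ⟨h, hh1, hhg, hph⟩ := hall
          refine Or.inr ⟨Nat.lcm g h, ?_, ?_⟩
          · obtain ⟨k, hk⟩ := Nat.dvd_lcm_left g h
            have hpos : 0 < Nat.lcm g h := Nat.lcm_pos (by omega) (by omega)
            have hne : Nat.lcm g h ≠ g := by
              intro he
              exact hhg (he ▸ Nat.dvd_lcm_right g h)
            have hk2 : 2 ≤ k := by
              by_contra hk3
              have hk4 : k = 0 ∨ k = 1 := by omega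
              rcases hk4 with rfl | rfl
              · omega
              · rw [mul_one] at hk
                exact hne hk
            rw [hk, pow_succ]
            exact Nat.mul_le_mul hg hk2
          · calc p (Nat.lcm g h) ≤ p g + p h := hlcm g h
              _ ≤ t₀ * (lam + 1) ^ j + lam * (t₀ * (lam + 1) ^ j) := Nat.add_le_add hpg hph
              _ = t₀ * (lam + 1) ^ (j + 1) := by ring
  rcases key l le_rfl with hc | ⟨g, hg, hpg⟩
  · exact hc
  · exfalso
    have h2 := hbig g (by omega)
    omega

end Helper80.TP
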